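import Mathlib

open Matrix

namespace Pool.Agent.Results.MP_6598fd_al.Symplectic

/-- The rank property of a subgroup of `GL(n, F)`. -/
def RankProperty {F : Type} [Field F] {n : ℕ} (G : Subgroup (GL (Fin n) F)) : Prop :=
  ∀ a : Matrix (Fin n) (Fin n) F, a.det = 0 →
    ∃ g ∈ G, (a * (g : Matrix (Fin n) (Fin n) F) * a).rank = a.rank

section
variable {F : Type} [Field F] {n : ℕ} (J : Matrix (Fin n) (Fin n) F)

def Sp : Subgroup (GL (Fin n) F) where
  carrier := {g | (g : Matrix (Fin n) (Fin n) F)ᵀ * J * g = J}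
  mul_mem' := by
    intro a b ha hb
    simp only [Set.mem_setOf_eq, Units.val_mul, transpose_mul] at ha hb ⊢
    calc _ = (b : Matrix (Fin n) (Fin n) F)ᵀ * ((a : Matrix (Fin n) (Fin n) F)ᵀ * J * a) * b := by
          simp only [Matrix.mul_assoc]
      _ = J := by rw [ha, hb]
  one_mem' := by simp
  inv_mem' := by
    intro a ha
    simp only [Set.mem_setOf_eq] at ha ⊢
    have h : (a : Matrix (Fin n) (Fin n) F) * (a⁻¹ : GL (Fin n) F) = 1 := by simp
    calc _ = ((a⁻¹ : GL (Fin n) F) : Matrix (Fin n) (Fin n) F)ᵀ *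
            ((a : Matrix (Fin n) (Fin n) F)ᵀ * J * a) * (a⁻¹ : GL (Fin n) F) := by rw [ha]
      _ = ((a : Matrix (Fin n) (Fin n) F) * ((a⁻¹ : GL (Fin n) F) : Matrix (Fin n) (Fin n) F))ᵀ * J *
            ((a : Matrix (Fin n) (Fin n) F) * ((a⁻¹ : GL (Fin n) F) : Matrix (Fin n) (Fin n) F)) := by
          simp only [transpose_mul, Matrix.mul_assoc]
      _ = J := by rw [h]; simp

variable {J}

lemma exists_tv (hJ : ∀ x, x ⬝ᵥ J *ᵥ x = 0) (v : Fin n → F) :
    ∃ g ∈ Sp J, ∀ x, (g : Matrix (Fin n) (Fin n) F) *ᵥ x = x + (v ⬝ᵥ J *ᵥ x) • v := by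
  have anti : ∀ x y, x ⬝ᵥ J *ᵥ y = -(y ⬝ᵥ J *ᵥ x) := by
    intro x y
    have := hJ (x + y)
    simp only [mulVec_add, add_dotProduct, dotProduct_add, hJ] at this
    linear_combination this
  let N : Matrix (Fin n) (Fin n) F := vecMulVec v (v ᵥ* J)
  have hN : ∀ x, N *ᵥ x = (v ⬝ᵥ J *ᵥ x) • v := by
    intro x
    simp only [N, vecMulVec_mulVec, dotProduct_mulVec]
    simp
  have hNN : N * N = 0 := by
    apply Matrix.toLin'.injective
    ext1; ext1
    simp only [LinearMap.comp_apply, toLin'_apply, ← mulVec_mulVec, hN, mulVec_smul,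
      dotProduct_smul, hJ, zero_smul, smul_zero, zero_mulVec]
  refine ⟨⟨1 + N, 1 - N, ?_, ?_⟩, ?_, fun x => ?_⟩
  · rw [add_mul, mul_sub, mul_sub, hNN]; simp
  · rw [sub_mul, mul_add, mul_add, hNN]; simp
  · change (1 + N)ᵀ * J * (1 + N) = J
    have key : ∀ x y, x ⬝ᵥ ((1 + N)ᵀ * J * (1 + N)) *ᵥ y = x ⬝ᵥ J *ᵥ y := by
      intro x y
      rw [← mulVec_mulVec, ← mulVec_mulVec, dotProduct_mulVec, vecMul_transpose]
      simp only [add_mulVec, one_mulVec, hN, mulVec_add, mulVec_smul, add_dotProduct,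
        dotProduct_add, smul_dotProduct, dotProduct_smul, hJ, smul_eq_mul]
      rw [anti x v]; ring
    ext i j
    have := key (Pi.single i 1) (Pi.single j 1)
    simpa using this
  · change (1 + N) *ᵥ x = _
    rw [add_mulVec, one_mulVec, hN]

lemma move (hJ : ∀ x, x ⬝ᵥ J *ᵥ x = 0) (hd : J.det ≠ 0) (K : Submodule F (Fin n → F)) :
    ∀ (d : ℕ) (W : Submodule F (Fin n → F)), Module.finrank F W + Module.finrank F K = n →
      Module.finrank F (W ⊓ K : Submodule F (Fin n → F)) = d →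
      ∃ g ∈ Sp J, ∀ x ∈ W, (g : Matrix (Fin n) (Fin n) F) *ᵥ x ∈ K → x = 0 := by
  intro d
  induction d using Nat.strong_induction_on with
  | _ d ih =>
  intro W hW hd'
  by_cases h0 : W ⊓ K = ⊥
  · refine ⟨1, (Sp J).one_mem, fun x hx hk => ?_⟩
    have : x ∈ W ⊓ K := ⟨hx, by simpa using hk⟩
    rwa [h0] at this
  obtain ⟨u, hu, hu0⟩ := (Submodule.ne_bot_iff _).1 h0
  have hJu : J *ᵥ u ≠ 0 := fun e => hu0 (eq_zero_of_mulVec_eq_zero hd e)
  obtain ⟨y, hy⟩ : ∃ y, y ⬝ᵥ J *ᵥ u ≠ 0 := by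
    by_contra hc
    push Not at hc
    exact hJu (dotProduct_eq_zero_iff.1 fun w => by rw [dotProduct_comm]; exact hc w)
  obtain ⟨z, hz⟩ : ∃ z, z ∉ W ⊔ K := by
    by_contra hc
    push Not at hc
    have h1 : W ⊔ K = ⊤ := eq_top_iff.2 fun z _ => hc z
    have h2 := Submodule.finrank_sup_add_finrank_inf_eq W K
    rw [h1, finrank_top, Module.finrank_fin_fun] at h2
    exact h0 (Submodule.finrank_eq_zero.1 (by omega))
  obtain ⟨v, hv1, hv2⟩ : ∃ v, v ∉ W ⊔ K ∧ v ⬝ᵥ J *ᵥ u ≠ 0 := by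
    by_cases h1 : y ∈ W ⊔ K
    · by_cases h2 : z ⬝ᵥ J *ᵥ u = 0
      · refine ⟨y + z, fun h => hz ?_, by simpa [h2] using hy⟩
        simpa using Submodule.sub_mem _ h h1
      · exact ⟨z, hz, h2⟩
    · exact ⟨y, h1, hy⟩
  obtain ⟨t, ht, htx⟩ := exists_tv hJ v
  let T : (Fin n → F) ≃ₗ[F] (Fin n → F) := Matrix.GeneralLinearGroup.toLin t |>.toLinearEquiv
  have hT : ∀ x, T x = (t : Matrix (Fin n) (Fin n) F) *ᵥ x := fun x => rfl
  have hlt : W.map T.toLinearMap ⊓ K < W ⊓ K := by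
    have sub : ∀ w ∈ W.map T.toLinearMap ⊓ K, w ∈ W ⊓ K ∧ v ⬝ᵥ J *ᵥ w = 0 := by
      rintro _ ⟨⟨x, hx, rfl⟩, hk⟩
      have hk' : x + (v ⬝ᵥ J *ᵥ x) • v ∈ K := by rw [← htx]; exact hk
      have c0 : v ⬝ᵥ J *ᵥ x = 0 := by
        by_contra hc
        apply hv1
        have : (v ⬝ᵥ J *ᵥ x) • v ∈ W ⊔ K := by
          have := Submodule.sub_mem _ (Submodule.mem_sup_right (S := W) hk')
            (Submodule.mem_sup_left (T := K) hx)
          simpa using this
        exact (Submodule.smul_mem_iff _ hc).1 this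
      have e : T.toLinearMap x = x := by
        change T x = x
        rw [hT, htx, c0]; simp
      rw [e] at hk ⊢
      exact ⟨⟨hx, hk⟩, c0⟩
    refine lt_of_le_of_ne (fun w hw => (sub w hw).1) fun e => hv2 ?_
    exact (sub u (e ▸ hu)).2
  obtain ⟨g, hg, hgx⟩ := ih _ (hd' ▸ Submodule.finrank_lt_finrank_of_lt hlt) (W.map T.toLinearMap)
    (by rw [LinearEquiv.finrank_map_eq]; exact hW) rfl
  refine ⟨g * t, (Sp J).mul_mem hg ht, fun x hx hk => ?_⟩
  have := hgx (T x) ⟨x, hx, rfl⟩ (by rwa [Units.val_mul, ← mulVec_mulVec] at hk)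
  exact T.injective (by rw [this, map_zero])

lemma rankProp (hJ : ∀ x, x ⬝ᵥ J *ᵥ x = 0) (hd : J.det ≠ 0) : RankProperty (Sp J) := by
  intro a _
  obtain ⟨g, hg, hgx⟩ := move hJ hd (LinearMap.ker a.mulVecLin) _ (LinearMap.range a.mulVecLin)
    (by rw [LinearMap.finrank_range_add_finrank_ker, Module.finrank_fin_fun]) rfl
  refine ⟨g, hg, ?_⟩
  have hk : LinearMap.ker (a * (g : Matrix (Fin n) (Fin n) F) * a).mulVecLin =
      LinearMap.ker a.mulVecLin := by
    ext x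
    simp only [LinearMap.mem_ker, mulVecLin_apply, ← mulVec_mulVec]
    constructor
    · intro h
      exact hgx _ ⟨x, rfl⟩ h
    · intro h
      simp [h]
  have h1 := LinearMap.finrank_range_add_finrank_ker (a * (g : Matrix (Fin n) (Fin n) F) * a).mulVecLin
  have h2 := LinearMap.finrank_range_add_finrank_ker a.mulVecLin
  rw [hk] at h1
  unfold Matrix.rank
  omega
end

theorem result (F : Type) [Field F] (m : ℕ) (hm : 2 ≤ m) :
    ∃ G : Subgroup (GL (Fin (m + m)) F), RankProperty G ∧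
      ¬ ∀ g : SpecialLinearGroup (Fin (m + m)) F, SpecialLinearGroup.toGL g ∈ G := by
  let e : Fin m ⊕ Fin m ≃ Fin (m + m) := finSumFinEquiv
  let J : Matrix (Fin (m + m)) (Fin (m + m)) F := reindex e e (Matrix.J (Fin m) F)
  refine ⟨Sp J, rankProp (fun x => ?_) ?_, fun h => ?_⟩
  · simp only [J, reindex_apply, submatrix_mulVec_equiv, Equiv.symm_symm]
    rw [← comp_equiv_dotProduct_comp_equiv _ _ e]
    simp [Matrix.J, dotProduct, mulVec, Function.comp_def, fromBlocks, Matrix.one_apply, mul_comm]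
  · simp only [J, det_reindex_self]
    exact (Matrix.isUnit_det_J (Fin m) F).ne_zero
  · let a : Fin m := ⟨0, by omega⟩
    let b : Fin m := ⟨1, by omega⟩
    have hab : a ≠ b := by simp [a, b]
    have h1 : e (Sum.inl a) ≠ e (Sum.inl b) := by simpa using hab
    have h2 := h (SpecialLinearGroup.transvection h1 1)
    change (1 + single _ _ (1 : F))ᵀ * J * (1 + single _ _ (1 : F)) = J at h2
    have h3 := congrFun (congrFun h2 (e (Sum.inr a))) (e (Sum.inl b))
    simp [mul_add, add_mul, transpose_single, J, Matrix.J] at h3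

end Pool.Agent.Results.MP_6598fd_al.Symplectic
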